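import Mathlib
import Pool.Agent.H159R3.GGL.Maps

/-!
Entire curves and pointed maps for quasi-projective varieties given, up to units, by few monomials
that are high powers.
-/

namespace Pool.Agent.Results.MP_c69980_ag.PowerSparseVarieties

open MvPolynomial Pool.Agent.H159R3.GGLLog

theorem result {n : ℕ} {ι : Type} (U : Set (Fin (n + 1))) [Finite ι]
    (F : ι → MvPolynomial (Fin (n + 1)) ℂ) (hF : ∀ i, ∃ d, (F i).IsHomogeneous d)
    (hC : ∀ i, PowerSparse U (F i)) (hirr : Irred U F) :
    PseudoBrody U F ↔ FewPointedMaps U F :=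
  few_iff U F hF hC hirr

end Pool.Agent.Results.MP_c69980_ag.PowerSparseVarieties
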