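import Mathlib
import Pool.Agent.H159R3.War.Maps

/-!
Entire curves and pointed maps for quasi-projective varieties given by forms of small Waring rank.
-/

namespace Pool.Agent.Results.MP_c69980_ag.WaringVarieties

open MvPolynomial Pool.Agent.H159R3.War Pool.Agent.H159R3.WarLog

theorem result {n : ℕ} {ι κ : Type} [Finite κ] (F : ι → MvPolynomial (Fin (n + 1)) ℂ)
    (Q : κ → MvPolynomial (Fin (n + 1)) ℂ) (hF : ∀ i, SmallWaring (F i))
    (hQ : ∀ j, ∃ d, SmallWaringLog (Q j) d) : PseudoBrody F Q ↔ FewPointedMaps F Q :=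
  few_iff F Q hF hQ

end Pool.Agent.Results.MP_c69980_ag.WaringVarieties
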